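import Pool.Agent.H70.OQ.Targets
import Pool.Agent.H68.AC.Can

/-! RED: a formula loses one level. -/

set_option autoImplicit false

namespace Pool.Agent.H93.OQ.RED

open Finset Pool.Agent.H6.NB Pool.Agent.H70.OQ

theorem ic_nonneg (p : Prop) : 0 ≤ ic p := by
  unfold ic; split <;> norm_num

theorem ic_le (p p' : Prop) (h : p → p') : ic p ≤ ic p' := by
  unfold ic
  split
  · rename_i hp
    rw [if_pos (h hp)]
  · split <;> norm_num

theorem uw_nonneg {A Z : Type} [Fintype A] [DecidableEq Z] (L : A → Finset Z) (h : A → Z) :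
    0 ≤ uw L h := by
  unfold uw
  refine prod_nonneg fun a _ => ?_
  split
  · positivity
  · exact le_refl 0

theorem lw_nonneg {A : Type} [Fintype A] (q : ℝ) (hq : 0 ≤ q) (hq1 : q ≤ 1) (l : A → Bool) :
    0 ≤ lw q l := by
  unfold lw
  refine prod_nonneg fun a _ => ?_
  split
  · exact hq
  · linarith

/-- from a tree over the positions of the last level to a tree over the nodes -/
def cv {A Z : Type} [DecidableEq Z] (h : A → Z) :
    Pool.Agent.H68.AC.DT (A × Z) → Pool.Agent.H68.AC.DT A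
  | .leaf b => .leaf b
  | .node v l r => if v.2 = h v.1 then .node v.1 (cv h r) (cv h l) else cv h r

theorem cv_depth {A Z : Type} [DecidableEq Z] (h : A → Z) (T : Pool.Agent.H68.AC.DT (A × Z)) :
    (cv h T).depth ≤ T.depth := by
  induction T with
  | leaf b => exact le_refl _
  | node v l r ihl ihr =>
    unfold cv
    split
    · simp only [Pool.Agent.H68.AC.DT.depth]
      omega
    · simp only [Pool.Agent.H68.AC.DT.depth]
      omega

theorem cv_eval {A Z : Type} [DecidableEq Z] (h : A → Z) (s : A → Bool)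
    (T : Pool.Agent.H68.AC.DT (A × Z)) : (cv h T).eval s = T.eval (glu h s) := by
  induction T with
  | leaf b => rfl
  | node v l r ihl ihr =>
    unfold cv
    split
    · rename_i hv
      simp only [Pool.Agent.H68.AC.DT.eval, glu, hv, ihl, ihr]
      cases s v.1 <;> simp
    · rename_i hv
      simp only [Pool.Agent.H68.AC.DT.eval, glu, hv, ihr]
      simp

theorem ext_glu {A Z : Type} [DecidableEq Z] (h : A → Z) (l s : A → Bool)
    (hs : ∀ a, l a = false → s a = true) : Pool.Agent.H68.AC.Ext (kap h l) (glu h s) := by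
  intro v b hv
  unfold kap at hv
  unfold glu
  split at hv
  · rename_i h2
    split at hv
    · exact absurd hv (by simp)
    · rename_i h3
      have h4 : s v.1 = true := hs v.1 (by simpa using h3)
      have h5 : false = b := by simpa using hv
      rw [← h5]
      simp [h2, h4]
  · rename_i h2
    have h5 : true = b := by simpa using hv
    rw [← h5]
    simp [h2]

theorem nfree_lt {V : Type} [Fintype V] [DecidableEq V] (κ : Pool.Agent.H68.AC.PA V) :
    Pool.Agent.H68.AC.nfree κ < Fintype.card V + 1 := by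
  unfold Pool.Agent.H68.AC.nfree
  have := card_le_univ (univ.filter (fun v => κ v = none))
  omega

theorem red0 {A Z : Type} [Fintype A] [DecidableEq A] [Fintype Z] [DecidableEq Z]
    (S w : ℕ) (f : (A × Z → Bool) → Bool) (hf : Fm S w 1 f) :
    ∃ cs : List (Bool × Pool.Agent.H68.AC.DT (A × Z)), (∀ c ∈ cs, c.2.depth ≤ w) ∧
      ∀ (h : A → Z) (l : A → Bool), ¬ Red S w 0 f h l →
        w < (Pool.Agent.H68.AC.can cs (Fintype.card (A × Z) + 1) (kap h l)).depth := by
  obtain ⟨m, g, b, _, hg, hfg⟩ := hf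
  choose T hT using hg
  refine ⟨List.ofFn (fun i => (b i, T i)), ?_, ?_⟩
  · intro c hc
    rw [List.mem_ofFn] at hc
    obtain ⟨i, rfl⟩ := hc
    exact (hT i).1
  · intro h l hr
    by_contra hlt
    push Not at hlt
    apply hr
    refine ⟨fun s => (cv h (Pool.Agent.H68.AC.can (List.ofFn (fun i => (b i, T i)))
      (Fintype.card (A × Z) + 1) (kap h l))).eval s, ⟨_, le_trans (cv_depth h _) hlt, fun y => rfl⟩, ?_⟩
    intro s hs
    simp only
    rw [cv_eval]
    have h2 := Pool.Agent.H68.AC.cane_t (A × Z) (List.ofFn (fun i => (b i, T i)))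
      (Fintype.card (A × Z) + 1) (kap h l) (glu h s) (nfree_lt _) (ext_glu h l s hs)
    rw [Bool.eq_iff_iff, h2, hfg]
    constructor
    · rintro ⟨c, hc, hce⟩
      rw [List.mem_ofFn] at hc
      obtain ⟨i, rfl⟩ := hc
      exact ⟨i, by rw [← (hT i).2]; exact hce⟩
    · rintro ⟨i, hi⟩
      exact ⟨(b i, T i), by rw [List.mem_ofFn]; exact ⟨i, rfl⟩, by rw [(hT i).2]; exact hi⟩

theorem redS {A Z : Type} [DecidableEq Z] (S w d : ℕ) (f : (A × Z → Bool) → Bool) (m : ℕ)
    (g : Fin m → (A × Z → Bool) → Bool) (b : Fin m → Bool) (hm : m ≤ S)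
    (hfg : ∀ y, (f y = true ↔ ∃ i, g i y = b i)) (h : A → Z) (l : A → Bool) :
    ic (¬ Red S w (d + 1) f h l) ≤ ∑ i, ic (¬ Red S w d (g i) h l) := by
  by_cases hall : ∀ i, Red S w d (g i) h l
  · have : Red S w (d + 1) f h l := by
      choose g' hg' using hall
      classical
      refine ⟨fun s => decide (∃ i, g' i s = b i), ⟨m, g', b, hm, fun i => (hg' i).1, fun y => by simp⟩, ?_⟩
      intro s hs
      rw [Bool.eq_iff_iff, hfg]
      simp only [decide_eq_true_eq]
      constructor
      · rintro ⟨i, hi⟩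
        exact ⟨i, by rw [← (hg' i).2 s hs]; exact hi⟩
      · rintro ⟨i, hi⟩
        exact ⟨i, by rw [(hg' i).2 s hs]; exact hi⟩
    have h0 : ic (¬ Red S w (d + 1) f h l) = 0 := by
      unfold ic; rw [if_neg (not_not.mpr this)]
    rw [h0]
    exact sum_nonneg fun i _ => ic_nonneg _
  · push Not at hall
    obtain ⟨i, hi⟩ := hall
    have h1 : ic (¬ Red S w (d + 1) f h l) ≤ 1 := by
      unfold ic; split <;> norm_num
    have h2 : ic (¬ Red S w d (g i) h l) = 1 := by
      unfold ic; rw [if_pos hi]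
    calc ic (¬ Red S w (d + 1) f h l) ≤ 1 := h1
      _ = ic (¬ Red S w d (g i) h l) := h2.symm
      _ ≤ ∑ i, ic (¬ Red S w d (g i) h l) :=
        single_le_sum (f := fun i => ic (¬ Red S w d (g i) h l)) (fun i _ => ic_nonneg _) (mem_univ i)

theorem red (h1 : T_SWT) : T_RED := by
  intro A Z _ _ _ _ S w d q L f hw hq hwq hL hf
  have hq1 : q ≤ 1 := by
    have : (1 : ℝ) ≤ w := by exact_mod_cast hw
    nlinarith
  have hW : ∀ (h : A → Z) (l : A → Bool), 0 ≤ uw L h * lw q l := fun h l =>
    mul_nonneg (uw_nonneg L h) (lw_nonneg q hq.le hq1 l)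
  induction d generalizing f with
  | zero =>
    obtain ⟨cs, hcs, hred⟩ := red0 S w f hf
    have := h1 A Z cs w q L hw hcs hq hwq hL
    rw [pow_zero, one_mul]
    refine le_trans (sum_le_sum fun h _ => sum_le_sum fun l _ => ?_) this
    exact mul_le_mul_of_nonneg_left (ic_le _ _ (hred h l)) (hW h l)
  | succ d ih =>
    obtain ⟨m, g, b, hm, hg, hfg⟩ := hf
    have hi : ∀ i, ∑ h : A → Z, ∑ l : A → Bool, uw L h * lw q l * ic (¬ Red S w d (g i) h l) ≤
        ((S : ℝ) + 1) ^ d * (5 / 2 ^ (w + 1)) := fun i => ih (g i) (hg i)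
    have hmS : (m : ℝ) ≤ S + 1 := by
      have : (m : ℝ) ≤ S := by exact_mod_cast hm
      linarith
    calc ∑ h : A → Z, ∑ l : A → Bool, uw L h * lw q l * ic (¬ Red S w (d + 1) f h l)
        ≤ ∑ h : A → Z, ∑ l : A → Bool, uw L h * lw q l * ∑ i, ic (¬ Red S w d (g i) h l) :=
          sum_le_sum fun h _ => sum_le_sum fun l _ =>
            mul_le_mul_of_nonneg_left (redS S w d f m g b hm hfg h l) (hW h l)
      _ = ∑ i, ∑ h : A → Z, ∑ l : A → Bool, uw L h * lw q l * ic (¬ Red S w d (g i) h l) := by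
          rw [sum_comm (s := (univ : Finset (Fin m)))]
          refine sum_congr rfl fun h _ => ?_
          rw [sum_comm (s := (univ : Finset (Fin m)))]
          exact sum_congr rfl fun l _ => mul_sum _ _ _
      _ ≤ ∑ _i : Fin m, ((S : ℝ) + 1) ^ d * (5 / 2 ^ (w + 1)) := sum_le_sum fun i _ => hi i
      _ = m * (((S : ℝ) + 1) ^ d * (5 / 2 ^ (w + 1))) := by
          rw [sum_const, card_univ, Fintype.card_fin, nsmul_eq_mul]
      _ ≤ (S + 1) * (((S : ℝ) + 1) ^ d * (5 / 2 ^ (w + 1))) :=
          mul_le_mul_of_nonneg_right hmS (by positivity)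
      _ = ((S : ℝ) + 1) ^ (d + 1) * (5 / 2 ^ (w + 1)) := by ring

end Pool.Agent.H93.OQ.RED
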